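import Pool.Agent.N773.MS.RINGcore
import Pool.Agent.N139.MS.Stm

/-!
# Project MS, statement RING (helper773)
-/

set_option autoImplicit false

namespace Pool.Agent.N773.MS

/-- the generators -/
def g' : Fin 4 → Pr := ![XX false, XX true, YY false, YY true]

/-- the algebra generated by the operators -/
abbrev Rs : Subalgebra F Pr := Algebra.adjoin F (Set.range g')

lemma XX_mem (i : Bool) : XX i ∈ Rs := by
  refine Algebra.subset_adjoin ?_
  cases i
  · exact ⟨0, rfl⟩
  · exact ⟨1, rfl⟩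

lemma YY_mem (i : Bool) : YY i ∈ Rs := by
  refine Algebra.subset_adjoin ?_
  cases i
  · exact ⟨2, rfl⟩
  · exact ⟨3, rfl⟩

lemma Psi_mem (a : Pr) (ha : a ∈ Rs) : Psi a ∈ Rs := by
  induction ha using Algebra.adjoin_induction with
  | mem a h =>
    obtain ⟨k, rfl⟩ := h
    have h1 : ∀ i, Psi (XX i) ∈ Rs := fun i => by
      rw [Psi_X]
      exact mul_mem (mul_mem (XX_mem _) (XX_mem _)) (YY_mem _)
    have h2 : ∀ i, Psi (YY i) ∈ Rs := fun i => by
      rw [Psi_Y]
      exact mul_mem (mul_mem (XX_mem _) (YY_mem _)) (YY_mem _)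
    fin_cases k
    · exact h1 false
    · exact h1 true
    · exact h2 false
    · exact h2 true
  | algebraMap c =>
    rw [Psi_algebraMap]
    exact mul_mem (Subalgebra.algebraMap_mem _ c) (mul_mem (XX_mem _) (YY_mem _))
  | add a b _ _ h1 h2 =>
    rw [map_add]
    exact add_mem h1 h2
  | mul a b _ _ h1 h2 =>
    rw [map_mul]
    exact mul_mem h1 h2

/-- the endomorphism of the algebra -/
def psi : Rs →ₙ+* Rs where
  toFun a := ⟨Psi a.1, Psi_mem _ a.2⟩
  map_mul' a b := Subtype.ext (map_mul Psi a.1 b.1)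
  map_zero' := Subtype.ext (map_zero Psi)
  map_add' a b := Subtype.ext (map_add Psi a.1 b.1)

lemma psi_iter (i : ℕ) (a : Rs) : ((psi^[i] a : Rs) : Pr) = Psi^[i] (a : Pr) := by
  induction i with
  | zero => rfl
  | succ i ih =>
    rw [Function.iterate_succ_apply', Function.iterate_succ_apply', ← ih]
    rfl

theorem t_RING : Pool.Agent.N139.MS.S_RING := by
  refine ⟨Rs, inferInstance, inferInstance, fun k => ⟨g' k, Algebra.subset_adjoin ⟨k, rfl⟩⟩, psi,
    ⟨pp, mul_mem (XX_mem _) (YY_mem _)⟩, L, inferInstance,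
    fun n => (Pi.evalRingHom _ n).comp Rs.val.toRingHom, ?_, ?_, ?_, ?_, ?_, ?_⟩
  · have h := Algebra.adjoin_adjoin_coe_preimage (R := F) (s := Set.range g')
    rw [← h]
    congr 1
    ext x
    constructor
    · rintro ⟨k, rfl⟩
      exact ⟨k, rfl⟩
    · rintro ⟨k, hk⟩
      exact ⟨k, Subtype.ext hk⟩
  · exact Subtype.ext pp_idem
  · intro a
    exact Subtype.ext (pp_Psi a.1)
  · intro a
    exact Subtype.ext (Psi_pp a.1)
  · exact ⟨⟨XX false * YY true, mul_mem (XX_mem _) (YY_mem _)⟩,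
      ⟨XX true * YY false, mul_mem (XX_mem _) (YY_mem _)⟩, Subtype.ext Psi_one_eq⟩
  · intro n i h
    have h1 := iter_ne i n h
    have h2 := psi_iter i 1
    show ((psi^[i] 1 : Rs) : Pr) n ≠ 0
    rw [h2]
    exact h1

end Pool.Agent.N773.MS
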