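import Mathlib

/-!
# The algebra generated by the truncated Leavitt operators (project MS, helper773)
-/

set_option autoImplicit false
set_option linter.unusedVariables false
set_option linter.unusedSimpArgs false

namespace Pool.Agent.N773.MS

/-- the field -/
abbrev F : Type := ZMod 257

/-- the words of length at most `n` -/
abbrev L (n : ℕ) : Type := {w : List Bool // w.length ≤ n}

instance (n : ℕ) : Finite (L n) := (List.finite_length_le Bool n).to_subtype

/-- creation at the head of the word -/
def X (n : ℕ) (i : Bool) : Module.End F (L n → F) where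
  toFun f w := match w with
    | ⟨[], _⟩ => 0
    | ⟨b :: w', h⟩ => if b = i then f ⟨w', (Nat.le_succ _).trans h⟩ else 0
  map_add' f g := by
    funext ⟨w, h⟩
    cases w with
    | nil => simp
    | cons b w' =>
      simp only [Pi.add_apply]
      split_ifs <;> simp
  map_smul' c f := by
    funext ⟨w, h⟩
    cases w with
    | nil => simp
    | cons b w' =>
      simp only [Pi.smul_apply, smul_eq_mul, RingHom.id_apply]
      split_ifs <;> simp

/-- annihilation at the head of the word -/
def Y (n : ℕ) (i : Bool) : Module.End F (L n → F) where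
  toFun f w := if h : w.1.length + 1 ≤ n then f ⟨i :: w.1, h⟩ else 0
  map_add' f g := by
    funext w
    simp only [Pi.add_apply]
    split_ifs <;> simp
  map_smul' c f := by
    funext w
    simp only [Pi.smul_apply, smul_eq_mul, RingHom.id_apply]
    split_ifs <;> simp

/-- restriction to the words which start with `false` -/
def r (n : ℕ) : (L (n + 1) → F) →ₗ[F] (L n → F) where
  toFun f w := f ⟨false :: w.1, Nat.succ_le_succ w.2⟩
  map_add' f g := rfl
  map_smul' c f := rfl

/-- extension by zero -/
def j (n : ℕ) : (L n → F) →ₗ[F] (L (n + 1) → F) where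
  toFun f w := match w with
    | ⟨[], _⟩ => 0
    | ⟨b :: w', h⟩ => if b = false then f ⟨w', Nat.le_of_succ_le_succ h⟩ else 0
  map_add' f g := by
    funext ⟨w, h⟩
    cases w with
    | nil => simp
    | cons b w' =>
      simp only [Pi.add_apply]
      split_ifs <;> simp
  map_smul' c f := by
    funext ⟨w, h⟩
    cases w with
    | nil => simp
    | cons b w' =>
      simp only [Pi.smul_apply, smul_eq_mul, RingHom.id_apply]
      split_ifs <;> simp

lemma X_nil (n : ℕ) (i : Bool) (f : L n → F) (h : ([] : List Bool).length ≤ n) :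
    X n i f ⟨[], h⟩ = 0 := rfl

lemma X_cons (n : ℕ) (i b : Bool) (w : List Bool) (f : L n → F) (h : (b :: w).length ≤ n) :
    X n i f ⟨b :: w, h⟩ = if b = i then f ⟨w, (Nat.le_succ _).trans h⟩ else 0 := rfl

lemma Y_apply (n : ℕ) (i : Bool) (f : L n → F) (w : L n) :
    Y n i f w = if h : w.1.length + 1 ≤ n then f ⟨i :: w.1, h⟩ else 0 := rfl

lemma Y_pos (n : ℕ) (i : Bool) (f : L n → F) (w : List Bool) (h0 : w.length ≤ n)
    (h : w.length + 1 ≤ n) : Y n i f ⟨w, h0⟩ = f ⟨i :: w, h⟩ := by
  rw [Y_apply, dif_pos h]

lemma r_apply (n : ℕ) (f : L (n + 1) → F) (w : L n) :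
    r n f w = f ⟨false :: w.1, Nat.succ_le_succ w.2⟩ := rfl

lemma j_nil (n : ℕ) (f : L n → F) (h : ([] : List Bool).length ≤ n + 1) :
    j n f ⟨[], h⟩ = 0 := rfl

lemma j_cons (n : ℕ) (b : Bool) (w : List Bool) (f : L n → F) (h : (b :: w).length ≤ n + 1) :
    j n f ⟨b :: w, h⟩ = if b = false then f ⟨w, Nat.le_of_succ_le_succ h⟩ else 0 := rfl

lemma rj (n : ℕ) (f : L n → F) : r n (j n f) = f := by
  funext w
  rw [r_apply, j_cons, if_pos rfl]

/-- the product algebra -/
abbrev Pr : Type := ∀ n : ℕ, Module.End F (L n → F)

/-- the shift of the product algebra -/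
def Psi : Pr →ₙ+* Pr where
  toFun a := fun n => match n with
    | 0 => 0
    | n + 1 => (j n) ∘ₗ (a n) ∘ₗ (r n)
  map_mul' a b := by
    funext n
    cases n with
    | zero => simp
    | succ n =>
      refine LinearMap.ext fun f => ?_
      simp only [Pi.mul_apply, Module.End.mul_apply, LinearMap.comp_apply, rj]
  map_zero' := by
    funext n
    cases n with
    | zero => rfl
    | succ n =>
      refine LinearMap.ext fun f => ?_
      simp only [Pi.zero_apply, LinearMap.comp_apply, LinearMap.zero_apply, map_zero]
  map_add' a b := by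
    funext n
    cases n with
    | zero => simp
    | succ n =>
      refine LinearMap.ext fun f => ?_
      simp only [Pi.add_apply, LinearMap.comp_apply, LinearMap.add_apply, map_add]

lemma Psi_zero_level (a : Pr) : Psi a 0 = 0 := rfl

lemma Psi_succ (a : Pr) (n : ℕ) (f : L (n + 1) → F) :
    Psi a (n + 1) f = j n (a n (r n f)) := rfl

/-- the generators -/
def XX (i : Bool) : Pr := fun n => X n i
/-- the generators -/
def YY (i : Bool) : Pr := fun n => Y n i

lemma ext_words {n : ℕ} {f g : L n → F} (h0 : ∀ h, f ⟨[], h⟩ = g ⟨[], h⟩)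
    (h1 : ∀ b w h, f ⟨b :: w, h⟩ = g ⟨b :: w, h⟩) : f = g := by
  funext ⟨w, h⟩
  cases w with
  | nil => exact h0 h
  | cons b w' => exact h1 b w' h

/-- `X_a Y_c` reads a word starting with `a` as a word starting with `c` -/
lemma XY (n : ℕ) (a c b : Bool) (f : L n → F) (w : List Bool) (h : (b :: w).length ≤ n) :
    X n a (Y n c f) ⟨b :: w, h⟩ = if b = a then f ⟨c :: w, h⟩ else 0 := by
  rw [X_cons]
  split_ifs with h1
  · rw [Y_pos n c f w _ h]
  · rfl

lemma Psi_X (i : Bool) : Psi (XX i) = XX false * XX i * YY false := by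
  funext n
  cases n with
  | zero =>
    rw [Psi_zero_level]
    refine LinearMap.ext fun f => ?_
    refine ext_words (fun h => ?_) (fun b w h => ?_)
    · rfl
    · exact absurd h (by simp)
  | succ n =>
    refine LinearMap.ext fun f => ?_
    rw [Psi_succ]
    show j n (X n i (r n f)) = X (n + 1) false (X (n + 1) i (Y (n + 1) false f))
    refine ext_words (fun h => rfl) (fun b w h => ?_)
    rw [j_cons, X_cons]
    split_ifs with h1
    · cases w with
      | nil => rfl
      | cons c w =>
        rw [XY, X_cons, r_apply]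
    · rfl

lemma Psi_Y (i : Bool) : Psi (YY i) = XX false * YY i * YY false := by
  funext n
  cases n with
  | zero =>
    rw [Psi_zero_level]
    refine LinearMap.ext fun f => ?_
    refine ext_words (fun h => ?_) (fun b w h => ?_)
    · rfl
    · exact absurd h (by simp)
  | succ n =>
    refine LinearMap.ext fun f => ?_
    rw [Psi_succ]
    show j n (Y n i (r n f)) = X (n + 1) false (Y (n + 1) i (Y (n + 1) false f))
    refine ext_words (fun h => rfl) (fun b w h => ?_)
    rw [j_cons, X_cons]
    split_ifs with h1
    · rw [Y_pos (n + 1) i _ w _ h, Y_apply, Y_apply]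
      by_cases h2 : w.length + 1 ≤ n
      · rw [dif_pos h2, dif_pos (by simpa using h2), r_apply]
      · rw [dif_neg h2, dif_neg (by simpa using h2)]
    · rfl

lemma Psi_one : Psi 1 = XX false * YY false := by
  funext n
  cases n with
  | zero =>
    rw [Psi_zero_level]
    refine LinearMap.ext fun f => ?_
    refine ext_words (fun h => ?_) (fun b w h => ?_)
    · rfl
    · exact absurd h (by simp)
  | succ n =>
    refine LinearMap.ext fun f => ?_
    rw [Psi_succ]
    show j n (r n f) = X (n + 1) false (Y (n + 1) false f)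
    refine ext_words (fun h => rfl) (fun b w h => ?_)
    rw [j_cons, XY]
    split_ifs with h1
    · rw [r_apply]
    · rfl

lemma Psi_algebraMap (c : F) : Psi (algebraMap F Pr c) = algebraMap F Pr c * (XX false * YY false) := by
  rw [← Psi_one]
  funext n
  cases n with
  | zero =>
    show (0 : Module.End F (L 0 → F)) = _ * 0
    rw [mul_zero]
  | succ n =>
    refine LinearMap.ext fun f => ?_
    show j n (algebraMap F (Module.End F (L n → F)) c (r n f)) =
      algebraMap F (Module.End F (L (n + 1) → F)) c (j n (r n f))
    rw [Module.algebraMap_end_apply, Module.algebraMap_end_apply, map_smul]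

/-- the idempotent -/
def pp : Pr := XX true * YY true

lemma pp_idem : pp * pp = pp := by
  funext n
  refine LinearMap.ext fun f => ?_
  show X n true (Y n true (X n true (Y n true f))) = X n true (Y n true f)
  refine ext_words (fun h => rfl) (fun b w h => ?_)
  rw [XY, XY, XY]
  split_ifs <;> simp_all

lemma pp_Psi_one : pp * Psi 1 = 0 := by
  rw [Psi_one]
  funext n
  refine LinearMap.ext fun f => ?_
  show X n true (Y n true (X n false (Y n false f))) = 0
  refine ext_words (fun h => rfl) (fun b w h => ?_)
  rw [XY, XY]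
  simp

lemma Psi_one_pp : Psi 1 * pp = 0 := by
  rw [Psi_one]
  funext n
  refine LinearMap.ext fun f => ?_
  show X n false (Y n false (X n true (Y n true f))) = 0
  refine ext_words (fun h => rfl) (fun b w h => ?_)
  rw [XY, XY]
  simp

lemma Psi_one_eq : Psi 1 = (XX false * YY true) * pp * (XX true * YY false) := by
  rw [Psi_one]
  funext n
  refine LinearMap.ext fun f => ?_
  show X n false (Y n false f) =
    X n false (Y n true (X n true (Y n true (X n true (Y n false f)))))
  refine ext_words (fun h => rfl) (fun b w h => ?_)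
  rw [XY, XY, XY, XY]
  simp

lemma pp_Psi (a : Pr) : pp * Psi a = 0 := by
  have h : Psi a = Psi 1 * Psi a := by rw [← map_mul, one_mul]
  rw [h, ← mul_assoc, pp_Psi_one, zero_mul]

lemma Psi_pp (a : Pr) : Psi a * pp = 0 := by
  have h : Psi a = Psi a * Psi 1 := by rw [← map_mul, mul_one]
  rw [h, mul_assoc, Psi_one_pp, mul_zero]

lemma iter_word (i : ℕ) : ∀ (n : ℕ) (h : (List.replicate i false).length ≤ n) (f : L n → F),
    ((Psi^[i] 1) n f) ⟨List.replicate i false, h⟩ = f ⟨List.replicate i false, h⟩ := by
  induction i with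
  | zero => intro n h f; rfl
  | succ i ih =>
    intro n h f
    cases n with
    | zero => exact absurd h (by simp)
    | succ n =>
      rw [Function.iterate_succ_apply', Psi_succ]
      show j n ((Psi^[i] 1) n (r n f)) ⟨false :: List.replicate i false, h⟩ = _
      rw [j_cons, if_pos rfl, ih, r_apply]
      rfl

lemma iter_ne (i n : ℕ) (h : i ≤ n) : (Psi^[i] 1) n ≠ 0 := by
  intro h0
  have h1 := iter_word i n (by simpa using h) (fun _ => 1)
  rw [h0] at h1
  have h2 : (0 : F) = 1 := h1
  exact absurd h2 (by decide)

end Pool.Agent.N773.MS
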